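import Mathlib

namespace Pool.Agent.Results.MP_9f168b_al.Blocks

/-- `r × id` on `X³` -/
def r12 {X : Type} (r : X × X → X × X) (t : X × X × X) : X × X × X :=
  ((r (t.1, t.2.1)).1, (r (t.1, t.2.1)).2, t.2.2)

/-- `id × r` on `X³` -/
def r23 {X : Type} (r : X × X → X × X) (t : X × X × X) : X × X × X := (t.1, r t.2)

/-- involutive non-degenerate solution of the Yang-Baxter equation -/
def IsSolution {X : Type} (r : X × X → X × X) : Prop :=
  Nonempty X ∧ Function.Bijective r ∧ r12 r ∘ r23 r ∘ r12 r = r23 r ∘ r12 r ∘ r23 r ∧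
    r ∘ r = id ∧ (∀ x, Function.Bijective fun y => (r (x, y)).1) ∧
    (∀ y, Function.Bijective fun x => (r (x, y)).2)

/-- simple solution -/
def IsSimple {X : Type} (r : X × X → X × X) : Prop :=
  Nontrivial X ∧ ∀ (X' : Type) (r' : X' × X' → X' × X'), IsSolution r' → ∀ f : X → X',
    Function.Surjective f → Prod.map f f ∘ r = r' ∘ Prod.map f f →
      Function.Bijective f ∨ Nat.card X' = 1

/-- the permutation group generated by the `σ_x` -/
def permGroup {X : Type} (r : X × X → X × X) : Subgroup (Equiv.Perm X) :=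
  Subgroup.closure {g | ∃ x, ∀ y, g y = (r (x, y)).1}

abbrev W := Fin 2 × Fin 4

def enc (a : W) : ℕ := 4 * a.1.val + a.2.val

def dec (n : ℕ) : W := (⟨n / 4 % 2, Nat.mod_lt _ (by norm_num)⟩, ⟨n % 4, Nat.mod_lt _ (by norm_num)⟩)

def look (T : ℕ) (a b : W) : W := dec (T >>> (3 * (8 * enc a + enc b)) % 8)

def sg (a b : W) : W := look 5462015722930313697692307801521232174691990330891052959361 a b

def ta (a b : W) : W := look 5438256055736192371357378668325329681964884058779300677261 a b

def rr (p : W × W) : W × W := (sg p.1 p.2, ta p.2 p.1)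

def mv (p : W × W) (m : ℕ) : W × W :=
  if m < 8 then (sg p.1 (dec m), sg p.2 (dec m)) else (sg (dec m) p.1, sg (dec m) p.2)

def cert1 : List (List ℕ) :=
  [[],[],[1],[1],[1],[9,0],[1],[1,1],[8],[],[8,1],[8,1],[8,1],[5,1],[8,1],[2,0],[0],[8,0],[],[15],
   [3,15],[9,0],[3,15],[0,1],[0],[8,0],[9,9],[],[3,15],[6,0],[3,15],[0,1],[0],[8,0],[2,15],[2,15],
   [],[9,8],[4,9],[0,1],[9,1],[5,0],[9,1],[6,1],[9],[],[9,1],[9,1],[0],[8,0],[2,15],[2,15],[13,1],
   [9,0],[],[13],[1,0],[2,1],[0,0],[0,0],[0,0],[9,0],[0,0],[]]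

def cert2 : List (List ℕ) := [[],[],[9,0],[1,1],[2,15],[8,5],[0,8],[1]]

theorem c1 : ∀ a b : W, a ≠ b →
    (cert1.getD (8 * enc a + enc b) []).foldl mv (a, b) = (dec 0, dec 1) := by decide +kernel

theorem c2 : ∀ b : W, b = dec 0 ∨
    (cert2.getD (enc b) []).foldl mv (dec 0, dec 1) = (dec 0, b) := by decide +kernel

theorem invol : ∀ p : W × W, rr (rr p) = p := by decide +kernel

theorem braid : ∀ t : W × W × W, r12 rr (r23 rr (r12 rr t)) = r23 rr (r12 rr (r23 rr t)) := by
  decide +kernel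

theorem injL : ∀ x y z : W, sg x y = sg x z → y = z := by decide +kernel

theorem injR : ∀ y x z : W, ta y x = ta y z → x = z := by decide +kernel

theorem blk : ∀ x a b : W, (sg x a).1 = (sg x b).1 ↔ a.1 = b.1 := by decide +kernel

theorem sol : IsSolution rr := by
  refine ⟨⟨dec 0⟩, Function.Involutive.bijective invol, funext braid, funext invol, ?_, ?_⟩
  · intro x
    exact Finite.injective_iff_bijective.1 (fun y z h => injL x y z h)
  · intro y
    exact Finite.injective_iff_bijective.1 (fun x z h => injR y x z h)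

theorem simple : IsSimple rr := by
  refine ⟨inferInstance, fun X' r' _ f hf hc => ?_⟩
  have h1 : ∀ a b, f (sg a b) = (r' (f a, f b)).1 := fun a b =>
    congrArg Prod.fst (congrFun hc (a, b))
  have step : ∀ (p : W × W) (m : ℕ), f p.1 = f p.2 → f (mv p m).1 = f (mv p m).2 := by
    intro p m h
    unfold mv
    split_ifs
    · simp only [h1, h]
    · simp only [h1, h]
  have steps : ∀ (l : List ℕ) (p : W × W), f p.1 = f p.2 →
      f (l.foldl mv p).1 = f (l.foldl mv p).2 := by
    intro l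
    induction l with
    | nil => intro p h; exact h
    | cons m l ih => intro p h; exact ih _ (step p m h)
  by_cases hi : Function.Injective f
  · exact Or.inl ⟨hi, hf⟩
  · right
    obtain ⟨a, b, hab, hne⟩ := Function.not_injective_iff.1 hi
    have h01 : f (dec 0) = f (dec 1) := by
      have := steps (cert1.getD (8 * enc a + enc b) []) (a, b) hab
      rwa [c1 a b hne] at this
    have hall : ∀ b, f (dec 0) = f b := by
      intro b
      rcases c2 b with h | h
      · rw [h]
      · have := steps (cert2.getD (enc b) []) (dec 0, dec 1) h01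
        rwa [h] at this
    rw [Nat.card_eq_one_iff_exists]
    refine ⟨f (dec 0), fun y => ?_⟩
    obtain ⟨x, rfl⟩ := hf y
    exact (hall x).symm

theorem blocks (g : Equiv.Perm W) (hg : g ∈ permGroup rr) (a b : W) :
    (g a).1 = (g b).1 ↔ a.1 = b.1 := by
  unfold permGroup at hg
  induction hg using Subgroup.closure_induction generalizing a b with
  | mem g h =>
    obtain ⟨x, hx⟩ := h
    rw [hx, hx]
    exact blk x a b
  | one => rfl
  | mul g h _ _ ih1 ih2 => rw [Equiv.Perm.mul_apply, Equiv.Perm.mul_apply, ih1, ih2]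
  | inv g _ ih =>
    have := ih (g⁻¹ a) (g⁻¹ b)
    simpa using this.symm

theorem result : ∃ (m n : ℕ)
    (r : (Fin m × Fin n) × (Fin m × Fin n) → (Fin m × Fin n) × (Fin m × Fin n)),
    1 < m ∧ 1 < n ∧ IsSolution r ∧ IsSimple r ∧
    (∀ g ∈ permGroup r, ∀ y : Fin m, ∃ y' : Fin m,
      g '' {x | x.1 = y} = {x | x.1 = y'}) ∧ ¬ n ∣ m := by
  refine ⟨2, 4, rr, by norm_num, by norm_num, sol, simple, fun g hg y => ?_, by norm_num⟩
  refine ⟨(g (y, 0)).1, Set.ext fun x => ⟨?_, fun h => ?_⟩⟩
  · rintro ⟨a, ha, rfl⟩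
    exact (blocks g hg a (y, 0)).2 ha
  · refine ⟨g⁻¹ x, ?_, by simp⟩
    have := (blocks g hg (g⁻¹ x) (y, 0)).1 (by simpa using h)
    exact this

end Pool.Agent.Results.MP_9f168b_al.Blocks
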